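import Mathlib
import Pool.Agent.Y509.LS.B3
import Pool.Agent.Y570.SP.Exact

/-!
Y570/LK (helper570, MP_b5f63d_co): the Lasserre hierarchy of a graph.
-/

set_option autoImplicit false
set_option linter.unusedSectionVars false

namespace Pool.Agent.Y570.LK

open Pool.Agent.Y570.KP (cond)
open Pool.Agent.Y509.LS (push push_card cond_insert_left cond_insert_right)

variable {V W : Type} [Fintype V] [DecidableEq V] [Fintype W] [DecidableEq W] {s t : ℕ}

/-- pseudo-independent sets of level `(s, t)` for the graph `R` -/
structure LC (s t : ℕ) (R : V → V → Prop) (y : Finset V → ℝ) : Prop where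
  one : y ∅ = 1
  sep : ∀ S : Finset V, ∀ u ∈ S, ∀ v ∈ S, u ≠ v → R u v → y S = 0
  nonneg : ∀ D F : Finset V, D.card + F.card ≤ s + 2 * t → 0 ≤ cond y D F ∅
  psd : ∀ D F : Finset V, D.card + F.card ≤ s → ∀ a : Finset V → ℝ,
    (∀ S, t < S.card → a S = 0) → 0 ≤ ∑ S, ∑ T, a S * a T * cond y D F (S ∪ T)

lemma LC.mono_s {R : V → V → Prop} {y : Finset V → ℝ} (h : LC (s + 1) t R y) : LC s t R y :=
  ⟨h.one, h.sep, fun D F hDF => h.nonneg D F (by omega), fun D F hDF => h.psd D F (by omega)⟩

lemma LC.mono_st {R : V → V → Prop} {y : Finset V → ℝ} (h : LC s (t + 1) R y) :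
    LC (s + 1) t R y := by
  refine ⟨h.one, h.sep, fun D F hDF => h.nonneg D F (by omega), fun D F hDF a ha => ?_⟩
  rcases Nat.lt_or_ge s (D.card + F.card) with h1 | h1
  swap
  · exact h.psd D F h1 a fun S hS => ha S (by omega)
  rcases Finset.eq_empty_or_nonempty D with h2 | ⟨x, hx⟩
  · rcases Finset.eq_empty_or_nonempty F with h3 | ⟨x, hx⟩
    · rw [h2, h3] at h1
      simp at h1
    · obtain ⟨F', hF', rfl⟩ : ∃ F', x ∉ F' ∧ insert x F' = F :=
        ⟨F.erase x, Finset.notMem_erase x F, Finset.insert_erase hx⟩
      rw [Finset.card_insert_of_notMem hF'] at hDF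
      have h4 := h.psd D F' (by omega) (fun S => ∑ i : Bool × Finset V,
        if (if i.1 then insert x i.2 else i.2) = S then (if i.1 then -a i.2 else a i.2) else 0)
        (push_card _ _ fun i hi => by
          have h5 : t < i.2.card := by
            by_cases h6 : i.1
            · rw [if_pos h6] at hi
              have := Finset.card_insert_le x i.2
              omega
            · rw [if_neg h6] at hi
              omega
          rw [ha _ h5]
          simp)
      rw [push (fun i : Bool × Finset V => if i.1 then insert x i.2 else i.2)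
        (fun i => if i.1 then -a i.2 else a i.2)] at h4
      refine h4.trans (le_of_eq ?_)
      rw [Fintype.sum_prod_type, Fintype.sum_bool]
      simp only [Fintype.sum_prod_type, Fintype.sum_bool, if_true, Bool.false_eq_true, if_false]
      rw [← Finset.sum_add_distrib]
      refine Finset.sum_congr rfl fun S _ => ?_
      rw [← Finset.sum_add_distrib, ← Finset.sum_add_distrib, ← Finset.sum_add_distrib]
      refine Finset.sum_congr rfl fun T _ => ?_
      rw [cond_insert_right y D hF']
      have e1 : insert x S ∪ insert x T = insert x (S ∪ T) := by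
        rw [Finset.insert_union, Finset.union_insert, Finset.insert_idem]
      rw [e1, Finset.insert_union, Finset.union_insert]
      ring
  · obtain ⟨D', hD', rfl⟩ : ∃ D', x ∉ D' ∧ insert x D' = D :=
      ⟨D.erase x, Finset.notMem_erase x D, Finset.insert_erase hx⟩
    rw [Finset.card_insert_of_notMem hD'] at hDF
    have h4 := h.psd D' F (by omega) (fun S => ∑ i : Finset V, if insert x i = S then a i else 0)
      (push_card _ _ fun i hi => by
        have := Finset.card_insert_le x i
        exact ha _ (by omega))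
    rw [push (fun i : Finset V => insert x i) a] at h4
    refine h4.trans (le_of_eq ?_)
    refine Finset.sum_congr rfl fun S _ => Finset.sum_congr rfl fun T _ => ?_
    rw [cond_insert_left, Finset.insert_union, Finset.union_insert, Finset.insert_idem]

lemma LC.mono_many {R : V → V → Prop} {y : Finset V → ℝ} (j : ℕ) :
    ∀ s : ℕ, LC s (t + j) R y → LC (s + j) t R y := by
  induction j with
  | zero => exact fun s h => h
  | succ j ih =>
    intro s h
    have h1 := ih (s + 1) (LC.mono_st (by rwa [← add_assoc] at h))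
    rwa [show s + 1 + j = s + (j + 1) by ring] at h1

/-- at `t = 1` -/
lemma LC.kc {R : V → V → Prop} {y : Finset V → ℝ} (h : LC s 1 R y) :
    Pool.Agent.Y570.SP.KC (s + 2) R y := by
  refine ⟨h.one, h.sep, fun D F hDF => h.nonneg D F (by omega), fun D F hDF a => ?_⟩
  have h1 := h.psd D F (by omega) (fun S => ∑ o : Option V, if o.toFinset = S then a o else 0)
    (push_card _ _ fun o ho => by
      exfalso
      rcases o with _ | x
      · simp at ho
      · simp at ho)
  rwa [push (fun o : Option V => o.toFinset) a] at h1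

lemma LC.kc' (ht : 1 ≤ t) {R : V → V → Prop} {y : Finset V → ℝ} (h : LC s t R y) :
    Pool.Agent.Y570.SP.KC (s + t + 1) R y := by
  obtain ⟨j, rfl⟩ : ∃ j, t = 1 + j := ⟨t - 1, by omega⟩
  have h1 := (LC.mono_many j s h).kc
  rwa [show s + j + 2 = s + (1 + j) + 1 by ring] at h1

lemma LC.transport (e : W ≃ V) {R : V → V → Prop} {R' : W → W → Prop}
    (hR : ∀ u v, R' u v → R (e u) (e v)) {y : Finset V → ℝ} (h : LC s t R y) :
    LC s t R' (fun S => y (S.map e.toEmbedding)) := by
  refine ⟨by simpa using h.one, ?_, ?_, ?_⟩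
  · intro S u hu v hv huv hlt
    refine h.sep _ (e u) ?_ (e v) ?_ (fun he => huv (e.injective he)) (hR u v hlt)
    · exact Finset.mem_map_of_mem e.toEmbedding hu
    · exact Finset.mem_map_of_mem e.toEmbedding hv
  · intro D F hDF
    rw [Pool.Agent.Y570.SP.cond_equiv, Finset.map_empty]
    exact h.nonneg _ _ (by rwa [Finset.card_map, Finset.card_map])
  · intro D F hDF a ha
    have h1 := h.psd (D.map e.toEmbedding) (F.map e.toEmbedding)
      (by rwa [Finset.card_map, Finset.card_map]) (fun S => a (S.map e.symm.toEmbedding))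
      (fun S hS => ha _ (by rwa [Finset.card_map]))
    refine h1.trans (le_of_eq ?_)
    obtain ⟨E, hE⟩ : ∃ E : Finset W ≃ Finset V, ∀ S, E S = S.map e.toEmbedding :=
      ⟨e.finsetCongr, fun S => rfl⟩
    have hE2 : ∀ S : Finset W, (E S).map e.symm.toEmbedding = S := by
      intro S
      rw [hE]
      ext x
      simp
    rw [← Equiv.sum_comp E]
    refine Finset.sum_congr rfl fun S _ => ?_
    rw [← Equiv.sum_comp E]
    refine Finset.sum_congr rfl fun T _ => ?_
    rw [hE2, hE2, Pool.Agent.Y570.SP.cond_equiv, hE, hE, Finset.map_union]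

/-- the indicator of an independent set -/
lemma lc_one {R : V → V → Prop} (hR : ∀ u v, u ≠ v → ¬ R u v) : LC s t R (fun _ => 1) := by
  have h1 : ∀ D F S : Finset V, cond (fun _ => (1 : ℝ)) D F S = if F = ∅ then 1 else 0 := by
    intro D F S
    unfold Pool.Agent.Y570.KP.cond
    simp only [mul_one]
    have h2 := Finset.sum_powerset_neg_one_pow_card (x := F)
    have h3 : ∑ m ∈ F.powerset, (-1 : ℝ) ^ m.card =
        ((∑ m ∈ F.powerset, (-1 : ℤ) ^ m.card : ℤ) : ℝ) := by
      push_cast
      rfl
    rw [h3, h2]
    split_ifs <;> simp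
  refine ⟨rfl, fun S u _ v _ huv h => absurd h (hR u v huv), fun D F _ => ?_,
    fun D F _ a _ => ?_⟩
  · rw [h1]
    split_ifs <;> norm_num
  · simp only [h1]
    have h4 : ∑ s, ∑ t, a s * a t * (if F = ∅ then (1 : ℝ) else 0) =
        (∑ s, a s) ^ 2 * (if F = ∅ then (1 : ℝ) else 0) := by
      rw [sq, Finset.sum_mul_sum, Finset.sum_mul]
      refine Finset.sum_congr rfl fun s _ => ?_
      rw [Finset.sum_mul]
    rw [h4]
    split_ifs <;> positivity

end Pool.Agent.Y570.LK
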