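import Mathlib
import Pool.Agent.Y509.LS.K5

/-!
Y570/LK (helper570, MP_b5f63d_co): integrals of radial functions over cones.
-/

set_option autoImplicit false

open MeasureTheory Metric Filter Topology

open scoped RealInnerProductSpace ENNReal Pointwise

namespace Pool.Agent.Y570.LK

open Pool.Agent.Y509.LS

variable {d : ℕ}

/-- the cone of the directions near `e` -/
def Co (e : E d) (c : ℝ) : Set (E d) := {x | c * ‖x‖ ≤ inner ℝ e x}

lemma co_meas (e : E d) (c : ℝ) : MeasurableSet (Co e c) :=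
  (isClosed_le (by fun_prop) (by fun_prop)).measurableSet

lemma co_smul {e : E d} {c m : ℝ} (hm : 0 < m) {x : E d} : m • x ∈ Co e c ↔ x ∈ Co e c := by
  unfold Co
  simp only [Set.mem_ofPred_eq, norm_smul, inner_smul_right, Real.norm_eq_abs, abs_of_pos hm]
  constructor
  · intro h
    have : m * (c * ‖x‖) ≤ m * inner ℝ e x := by linarith
    exact le_of_mul_le_mul_left this hm
  · intro h
    have := mul_le_mul_of_nonneg_left h hm.le
    linarith

lemma co_ball (e : E d) (c : ℝ) {m : ℝ} (hm : 0 < m) :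
    volume (Co e c ∩ closedBall 0 m) =
      ENNReal.ofReal (m ^ d) * volume (Co e c ∩ closedBall 0 1) := by
  have h1 : Co e c ∩ closedBall 0 m = m • (Co e c ∩ closedBall 0 1) := by
    ext x
    rw [Set.mem_smul_set_iff_inv_smul_mem₀ hm.ne']
    simp only [Set.mem_inter_iff, mem_closedBall_zero_iff]
    rw [co_smul (inv_pos.2 hm), norm_smul, Real.norm_eq_abs, abs_of_pos (inv_pos.2 hm),
      inv_mul_le_iff₀ hm, mul_one]
  rw [h1, Measure.addHaar_smul, finrank_euclideanSpace_fin, abs_of_pos (by positivity)]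

lemma cb_ball {m : ℝ} (hm : 0 < m) :
    volume (closedBall (0 : E d) m) = ENNReal.ofReal (m ^ d) * volume (closedBall (0 : E d) 1) := by
  rw [Measure.addHaar_closedBall volume 0 hm.le, Measure.addHaar_closedBall volume 0 zero_le_one,
    finrank_euclideanSpace_fin]
  simp

lemma co_map (hd : 0 < d) (e : E d) (c : ℝ) {R : ℝ} (hR : 0 ≤ R) :
    (volume.restrict (Co e c ∩ closedBall 0 R)).map (fun x : E d => ‖x‖) =
      (volume (Co e c ∩ closedBall 0 1) / volume (closedBall (0 : E d) 1)) •
        (volume.restrict (closedBall (0 : E d) R)).map (fun x : E d => ‖x‖) := by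
  have hne : Nonempty (Fin d) := ⟨⟨0, hd⟩⟩
  have hB0 : volume (closedBall (0 : E d) 1) ≠ 0 := (measure_closedBall_pos _ _ one_pos).ne'
  have hBt : volume (closedBall (0 : E d) 1) ≠ ∞ := (isCompact_closedBall _ _).measure_lt_top.ne
  have hm : Measurable (fun x : E d => ‖x‖) := measurable_norm
  haveI : IsFiniteMeasure (volume.restrict (Co e c ∩ closedBall (0 : E d) R)) :=
    ⟨by
      rw [Measure.restrict_apply_univ]
      exact (measure_mono Set.inter_subset_right).trans_lt
        (isCompact_closedBall _ _).measure_lt_top⟩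
  haveI : IsFiniteMeasure ((volume.restrict (Co e c ∩ closedBall (0 : E d) R)).map
      (fun x : E d => ‖x‖)) := Measure.isFiniteMeasure_map _ _
  refine Measure.ext_of_Iic _ _ fun a => ?_
  rw [Measure.smul_apply, Measure.map_apply hm measurableSet_Iic,
    Measure.map_apply hm measurableSet_Iic, Measure.restrict_apply (hm measurableSet_Iic),
    Measure.restrict_apply (hm measurableSet_Iic)]
  rcases lt_or_ge a 0 with ha | ha
  · have h1 : (fun x : E d => ‖x‖) ⁻¹' Set.Iic a = ∅ := by
      ext x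
      simp only [Set.mem_preimage, Set.mem_Iic, Set.mem_empty_iff_false, iff_false, not_le]
      exact ha.trans_le (norm_nonneg x)
    rw [h1]
    simp
  have h2 : (fun x : E d => ‖x‖) ⁻¹' Set.Iic a ∩ (Co e c ∩ closedBall 0 R) =
      Co e c ∩ closedBall 0 (min a R) := by
    ext x
    simp only [Set.mem_inter_iff, Set.mem_preimage, Set.mem_Iic, mem_closedBall_zero_iff,
      le_min_iff]
    tauto
  have h3 : (fun x : E d => ‖x‖) ⁻¹' Set.Iic a ∩ closedBall 0 R =
      closedBall (0 : E d) (min a R) := by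
    ext x
    simp only [Set.mem_inter_iff, Set.mem_preimage, Set.mem_Iic, mem_closedBall_zero_iff,
      le_min_iff]
  rw [h2, h3]
  rcases (le_min ha hR).eq_or_lt with h4 | h4
  · rw [← h4]
    have h5 : volume (closedBall (0 : E d) 0) = 0 := by
      rw [closedBall_zero]
      exact measure_singleton 0
    rw [h5, measure_mono_null Set.inter_subset_right h5]
    simp
  · rw [co_ball e c h4, cb_ball h4, smul_eq_mul, mul_left_comm, ENNReal.div_mul_cancel hB0 hBt]

/-- integrals of radial functions over a cone -/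
lemma co_int (hd : 0 < d) {e : E d} (he : ‖e‖ = 1) (c : ℝ) {R : ℝ} (hR : 0 ≤ R) {G : E d → ℝ}
    (hG : Rad G) (hm : Measurable G) :
    ∫ x in Co e c ∩ closedBall 0 R, G x =
      volume.real (Co e c ∩ closedBall 0 1) / V1 d * ∫ x in closedBall (0 : E d) R, G x := by
  obtain ⟨F, hF⟩ : ∃ F : ℝ → ℝ, F = fun t => G (t • e) := ⟨_, rfl⟩
  have hFm : Measurable F := by
    rw [hF]
    exact hm.comp (by fun_prop)
  have h1 : ∀ x, G x = F ‖x‖ := by
    intro x
    rw [hF]
    exact rad_smul hG he x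
  have hn : Measurable (fun x : E d => ‖x‖) := measurable_norm
  simp_rw [h1]
  rw [← integral_map (f := F) hn.aemeasurable hFm.aestronglyMeasurable,
    ← integral_map (f := F) hn.aemeasurable hFm.aestronglyMeasurable,
    co_map hd e c hR, integral_smul_measure, ENNReal.toReal_div, smul_eq_mul]
  congr 2
  rw [← measureReal_def, vol_cb zero_le_one, one_pow, one_mul]

lemma co_vol {e : E d} (he : ‖e‖ = 1) {c T : ℝ} (hc : 0 ≤ c) (hc2 : c ^ 2 ≤ 1 / 2) (hT : 0 ≤ T)
    (hT2 : 1 - c ^ 2 ≤ T ^ 2) : volume.real (Co e c ∩ closedBall 0 1) ≤ T ^ d * V1 d := by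
  have h1 : Co e c ∩ closedBall 0 1 ⊆ closedBall (c • e) T := by
    rintro x ⟨hx, hx1⟩
    unfold Co at hx
    rw [Set.mem_ofPred_eq] at hx
    rw [mem_closedBall_zero_iff] at hx1
    rw [mem_closedBall, dist_eq_norm]
    have h2 : ‖x - c • e‖ ^ 2 ≤ T ^ 2 := by
      rw [norm_sub_sq_real, norm_smul, he, inner_smul_right, real_inner_comm, Real.norm_eq_abs,
        mul_one, sq_abs]
      refine le_trans ?_ hT2
      have h3 : c * (c * ‖x‖) ≤ c * inner ℝ e x := mul_le_mul_of_nonneg_left hx hc
      have h4 : 0 ≤ ‖x‖ := norm_nonneg x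
      nlinarith [mul_nonneg h4 (sub_nonneg.2 hx1), mul_nonneg (sub_nonneg.2 hc2) (sub_nonneg.2 hx1)]
    exact (pow_le_pow_iff_left₀ (norm_nonneg _) hT (by norm_num)).1 h2
  have h2 : volume.real (closedBall (c • e) T) = T ^ d * V1 d := by
    rw [← vol_cb hT, measureReal_def, measureReal_def, Measure.addHaar_closedBall volume _ hT,
      Measure.addHaar_closedBall volume _ hT]
  rw [← h2]
  exact measureReal_mono h1 (isCompact_closedBall _ _).measure_lt_top.ne

/-- integrals of radial functions over a cone -/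
theorem co_le (hd : 0 < d) {e : E d} (he : ‖e‖ = 1) {c T : ℝ} (hc : 0 ≤ c) (hc2 : c ^ 2 ≤ 1 / 2)
    (hT : 0 ≤ T) (hT2 : 1 - c ^ 2 ≤ T ^ 2) {R : ℝ} (hR : 0 ≤ R) {G : E d → ℝ}
    (hG : Rad G) (hm : Measurable G) (h0 : ∀ x, 0 ≤ G x) (hi : Integrable G) :
    ∫ x in Co e c ∩ closedBall 0 R, G x ≤ T ^ d * ∫ x, G x := by
  have hV := V1_pos d
  rw [co_int hd he c hR hG hm]
  have h1 : volume.real (Co e c ∩ closedBall 0 1) / V1 d ≤ T ^ d := by
    rw [div_le_iff₀ hV]
    exact co_vol he hc hc2 hT hT2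
  have h2 : ∫ x in closedBall (0 : E d) R, G x ≤ ∫ x, G x :=
    setIntegral_le_integral hi (Eventually.of_forall h0)
  have h3 : 0 ≤ ∫ x in closedBall (0 : E d) R, G x := integral_nonneg h0
  exact mul_le_mul h1 h2 h3 (by positivity)

end Pool.Agent.Y570.LK
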