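import Mathlib
import Pool.Agent.Y570.LK.Cone

/-!
Y570/LK (helper570, MP_b5f63d_co): the rows of a radial kernel on a thin shell.
-/

set_option autoImplicit false

open MeasureTheory Metric Filter Topology

open scoped RealInnerProductSpace ENNReal

namespace Pool.Agent.Y570.LK

open Pool.Agent.Y509.LS

variable {d : ℕ}

/-- the lens -/
lemma lens {u v : E d} {r R κ T : ℝ} (hR : 0 < R) (hrR : r ^ 2 ≤ 2 * R ^ 2)
    (hκ : 0 ≤ κ) (hu : R ^ 2 - κ ≤ ‖u‖ ^ 2) (hv : ‖v‖ ≤ R) (hr : 0 ≤ r) (huv : ‖u - v‖ ≤ r)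
    (hT0 : 0 ≤ T) (hT : r ^ 2 - r ^ 4 / (4 * R ^ 2) + κ ≤ T ^ 2) :
    v ∈ closedBall ((1 - r ^ 2 / (2 * R ^ 2)) • u) T := by
  obtain ⟨l, hl⟩ : ∃ l : ℝ, l = r ^ 2 / (2 * R ^ 2) := ⟨_, rfl⟩
  have hl0 : 0 ≤ l := by rw [hl]; positivity
  have hl1 : l ≤ 1 := by
    rw [hl, div_le_one (by positivity)]
    exact hrR
  have hl2 : l * (2 * R ^ 2) = r ^ 2 := by
    rw [hl]
    field_simp
  rw [← hl, mem_closedBall, dist_eq_norm]
  refine (pow_le_pow_iff_left₀ (norm_nonneg _) hT0 (by norm_num : (2 : ℕ) ≠ 0)).1 (le_trans ?_ hT)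
  have h1 : ‖v - (1 - l) • u‖ ^ 2 =
      l * ‖v‖ ^ 2 + (1 - l) * ‖u - v‖ ^ 2 - l * (1 - l) * ‖u‖ ^ 2 := by
    rw [norm_sub_sq_real, norm_sub_sq_real, norm_smul, inner_smul_right, real_inner_comm u v,
      Real.norm_eq_abs, mul_pow, sq_abs]
    ring
  have h2 : ‖v‖ ^ 2 ≤ R ^ 2 := pow_le_pow_left₀ (norm_nonneg _) hv 2
  have h3 : ‖u - v‖ ^ 2 ≤ r ^ 2 := pow_le_pow_left₀ (norm_nonneg _) huv 2
  have h4 : r ^ 4 / (4 * R ^ 2) = l ^ 2 * R ^ 2 := by
    rw [hl]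
    field_simp
    ring
  rw [h1, h4]
  have h5 : l * ‖v‖ ^ 2 ≤ l * R ^ 2 := mul_le_mul_of_nonneg_left h2 hl0
  have h6 : (1 - l) * ‖u - v‖ ^ 2 ≤ (1 - l) * r ^ 2 :=
    mul_le_mul_of_nonneg_left h3 (by linarith)
  have h7 : l * (1 - l) * (R ^ 2 - κ) ≤ l * (1 - l) * ‖u‖ ^ 2 :=
    mul_le_mul_of_nonneg_left hu (mul_nonneg hl0 (by linarith))
  have h8 : l * (1 - l) * κ ≤ 1 * κ := by
    refine mul_le_mul_of_nonneg_right ?_ hκ
    nlinarith
  nlinarith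

/-- points at distance `> r` lie in a cone -/
lemma far {u v : E d} {r R κ c : ℝ} (hu0 : 0 < ‖u‖) (huR : ‖u‖ ≤ R)
    (hu : R ^ 2 - κ ≤ ‖u‖ ^ 2) (hv : ‖v‖ ≤ R) (hc : 0 ≤ c) (hr : 0 < r) (hκ : 0 ≤ κ)
    (hcr : 2 * R * c * r ≤ r ^ 2 - κ) (huv : r < ‖u - v‖) :
    u - v ∈ Co (‖u‖⁻¹ • u) c := by
  unfold Co
  rw [Set.mem_ofPred_eq, inner_smul_left]
  simp only [conj_trivial]
  rw [← div_eq_inv_mul, le_div_iff₀ hu0]
  obtain ⟨X, hX⟩ : ∃ X : ℝ, X = ‖u - v‖ := ⟨_, rfl⟩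
  have h1 : ‖v‖ ^ 2 = ‖u‖ ^ 2 - 2 * inner ℝ u (u - v) + X ^ 2 := by
    have : v = u - (u - v) := by abel
    rw [hX]
    conv_lhs => rw [this]
    rw [norm_sub_sq_real]
  have h2 : ‖v‖ ^ 2 ≤ R ^ 2 := pow_le_pow_left₀ (norm_nonneg _) hv 2
  rw [← hX] at huv ⊢
  have hRc : 0 ≤ R * c := mul_nonneg (by linarith) hc
  have h3 : 2 * R * c ≤ r := by
    have : 2 * R * c * r ≤ r * r := by nlinarith
    exact le_of_mul_le_mul_right this hr
  have h4 : r * (r - 2 * R * c) ≤ X * (X - 2 * R * c) :=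
    mul_le_mul huv.le (by linarith) (by linarith) (by linarith)
  have h5 : c * X * ‖u‖ ≤ c * X * R :=
    mul_le_mul_of_nonneg_left huR (mul_nonneg hc (by linarith))
  nlinarith

/-- **The rows of a radial kernel on a shell.** -/
theorem row (hd : 0 < d) {g : E d → ℝ} {r R κ T c M : ℝ} (hg : Rad g) (hm : Measurable g)
    (hcore : ∀ x, ‖x‖ ≤ r → g x = -1) (hi : Integrable fun x => g x ^ 2)
    (hM : ∫ x, g x ^ 2 ≤ M) (hr : 0 < r) (hR : 0 < R) (hrR : r ^ 2 ≤ 2 * R ^ 2) (hκ : 0 ≤ κ)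
    (hc : 0 ≤ c) (hc2 : c ^ 2 ≤ 1 / 2) (hT0 : 0 ≤ T)
    (hT1 : r ^ 2 - r ^ 4 / (4 * R ^ 2) + κ ≤ T ^ 2) (hT2 : 1 - c ^ 2 ≤ T ^ 2)
    (hcr : 2 * R * c * r ≤ r ^ 2 - κ) {u : E d} (hu0 : 0 < ‖u‖) (huR : ‖u‖ ≤ R)
    (hu : R ^ 2 - κ ≤ ‖u‖ ^ 2) {Ω : Set (E d)} (hΩ : MeasurableSet Ω) (hΩR : ∀ v ∈ Ω, ‖v‖ ≤ R) :
    ∫ v in Ω, g (u - v) ^ 2 ≤ T ^ d * (V1 d + M) := by
  obtain ⟨e, he⟩ : ∃ e : E d, e = ‖u‖⁻¹ • u := ⟨_, rfl⟩
  have he1 : ‖e‖ = 1 := by
    rw [he, norm_smul, norm_inv, norm_norm, inv_mul_cancel₀ hu0.ne']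
  obtain ⟨B, hB⟩ : ∃ B : Set (E d), B = closedBall ((1 - r ^ 2 / (2 * R ^ 2)) • u) T := ⟨_, rfl⟩
  obtain ⟨K, hK⟩ : ∃ K : Set (E d), K = Co e c ∩ closedBall 0 (2 * R) := ⟨_, rfl⟩
  have hBm : MeasurableSet B := by rw [hB]; exact measurableSet_closedBall
  have hKm : MeasurableSet K := by rw [hK]; exact (co_meas e c).inter measurableSet_closedBall
  have hBt : volume B ≠ ∞ := by rw [hB]; exact (isCompact_closedBall _ _).measure_lt_top.ne
  have hBv : volume.real B = T ^ d * V1 d := by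
    rw [hB, ← vol_cb hT0, measureReal_def, measureReal_def, Measure.addHaar_closedBall volume _ hT0,
      Measure.addHaar_closedBall volume _ hT0]
  have i1 : Integrable (B.indicator fun _ : E d => (1 : ℝ)) :=
    (integrable_indicator_iff hBm).2 (integrableOn_const hBt)
  have i2' : Integrable (K.indicator fun x : E d => g x ^ 2) := hi.indicator hKm
  have i2 : Integrable (fun v => (K.indicator fun x : E d => g x ^ 2) (u - v)) :=
    i2'.comp_sub_left u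
  have h1 : ∀ v ∈ Ω, g (u - v) ^ 2 ≤ (B.indicator fun _ : E d => (1 : ℝ)) v +
      (K.indicator fun x : E d => g x ^ 2) (u - v) := by
    intro v hv
    have hvR := hΩR v hv
    rcases le_or_gt ‖u - v‖ r with h | h
    · have h2 : v ∈ B := by
        rw [hB]
        exact lens hR hrR hκ hu hvR hr.le h hT0 hT1
      rw [hcore _ h, Set.indicator_of_mem h2]
      have h3 : 0 ≤ (K.indicator fun x : E d => g x ^ 2) (u - v) :=
        Set.indicator_nonneg (fun _ _ => sq_nonneg _) _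
      linarith
    · have h2 : u - v ∈ K := by
        rw [hK, he]
        refine ⟨far hu0 huR hu hvR hc hr hκ hcr h, ?_⟩
        rw [mem_closedBall_zero_iff]
        refine (norm_sub_le _ _).trans ?_
        linarith
      rw [Set.indicator_of_mem h2]
      have h3 : 0 ≤ (B.indicator fun _ : E d => (1 : ℝ)) v :=
        Set.indicator_nonneg (fun _ _ => zero_le_one) _
      linarith
  have h2 : ∫ v in Ω, g (u - v) ^ 2 ≤ ∫ v, ((B.indicator fun _ : E d => (1 : ℝ)) v +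
      (K.indicator fun x : E d => g x ^ 2) (u - v)) := by
    rw [← integral_indicator hΩ]
    refine integral_mono_of_nonneg (Eventually.of_forall fun v => ?_) (i1.add i2)
      (Eventually.of_forall fun v => ?_)
    · exact Set.indicator_nonneg (fun _ _ => sq_nonneg _) _
    · by_cases hv : v ∈ Ω
      · simp only [Set.indicator_of_mem hv]
        exact h1 v hv
      · simp only [Set.indicator_of_notMem hv]
        exact add_nonneg (Set.indicator_nonneg (fun _ _ => zero_le_one) _)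
          (Set.indicator_nonneg (fun _ _ => sq_nonneg _) _)
  refine h2.trans ?_
  rw [integral_add i1 i2, integral_sub_left_eq_self (K.indicator fun x : E d => g x ^ 2) volume u,
    integral_indicator hBm, integral_indicator hKm, setIntegral_const, smul_eq_mul, mul_one, hBv,
    mul_add]
  have h3 := co_le hd he1 hc hc2 hT0 hT2 (R := 2 * R) (by positivity) (G := fun x => g x ^ 2)
    (fun x y hxy => by
      show g x ^ 2 = g y ^ 2
      rw [hg x y hxy]) (hm.pow_const 2) (fun x => sq_nonneg _) hi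
  have h4 : T ^ d * ∫ x, g x ^ 2 ≤ T ^ d * M := mul_le_mul_of_nonneg_left hM (by positivity)
  rw [hK]
  linarith

end Pool.Agent.Y570.LK
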