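import Mathlib
import Pool.Agent.Y570.LK.Row
import Pool.Agent.Y509.LS.K12
import Pool.Agent.Y509.LS.R4
import Pool.Agent.Y509.LS.B1

/-!
Y570/LK (helper570, MP_b5f63d_co): the discretized kernel on a region (after Y509/LS).
-/

set_option autoImplicit false

open MeasureTheory Metric Filter Topology

open scoped RealInnerProductSpace ENNReal

namespace Pool.Agent.Y570.LK

open Pool.Agent.Y509.LS Pool.Agent.Y570.LS

variable {d : ℕ} {F : Set (E d)} {g : E d → ℝ} {r K L M δ : ℝ} {X : Finset (E d)}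

lemma gX_row' (h : GS d r K L M g) (hF : MeasurableSet F) (hFt : volume F ≠ ⊤)
    (hF0 : 0 < volume.real F) (hD : Dis F X) {Ω : Set (E d)} (hΩ : MeasurableSet Ω)
    (hcell : ∀ x ∈ X, ∀ a ∈ F, x + a ∈ Ω) {M' : ℝ}
    (hM' : ∀ u ∈ Ω, ∫ v in Ω, g (u - v) ^ 2 ≤ M') (x : X) :
    ∑ y : X, gX F g (x : E d) (y : E d) ^ 2 ≤ M' / volume.real F := by
  obtain ⟨f, hf⟩ : ∃ f : ℝ, f = volume.real F := ⟨_, rfl⟩
  have hf0 : 0 < f := by rw [hf]; exact hF0
  have hcΩ : ∀ (z : X) (u : E d), ce F (z : E d) u ≠ 0 → u ∈ Ω := by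
    intro z u hu
    have h1 := hcell z z.2 _ (ce_mem hu)
    rwa [add_sub_cancel] at h1
  have hC : ∀ u, |g u ^ 2| ≤ (max 1 K) ^ 2 := fun u => by
    rw [abs_pow]
    exact pow_le_pow_left₀ (abs_nonneg _) (g_bdd h u) 2
  have i2 : ∀ y : E d, Integrable (fun p : E d × E d => ce F (x : E d) p.1 *
      (g (p.1 - p.2) ^ 2 * ce F y p.2)) (volume.prod volume) := fun y =>
    ce_prod_int hF hFt (x : E d) y (h := fun u => g u ^ 2) (h.meas.pow_const 2) hC
  have h1 : ∑ y : X, gX F g (x : E d) (y : E d) ^ 2 ≤ f⁻¹ ^ 2 * ∑ y : X, ∫ p : E d × E d,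
      ce F (x : E d) p.1 * (g (p.1 - p.2) ^ 2 * ce F y p.2) ∂(volume.prod volume) := by
    rw [Finset.mul_sum, hf]
    exact Finset.sum_le_sum fun y _ => gX_sq h hF hFt hF0 (x : E d) y
  have h2 : ∑ y : X, ∫ p : E d × E d,
      ce F (x : E d) p.1 * (g (p.1 - p.2) ^ 2 * ce F y p.2) ∂(volume.prod volume) =
      ∫ u, ce F (x : E d) u * ∑ y : X, ∫ v, g (u - v) ^ 2 * ce F (y : E d) v := by
    have e1 : ∀ y : X, ∫ p : E d × E d,
        ce F (x : E d) p.1 * (g (p.1 - p.2) ^ 2 * ce F y p.2) ∂(volume.prod volume) =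
        ∫ u, ce F (x : E d) u * ∫ v, g (u - v) ^ 2 * ce F (y : E d) v := by
      intro y
      rw [integral_prod _ (i2 y)]
      congr 1
      funext u
      rw [← integral_const_mul]
    simp_rw [e1]
    rw [← integral_finsetSum]
    · congr 1
      funext u
      rw [Finset.mul_sum]
    · intro y _
      have := (i2 y).integral_prod_left
      refine this.congr (Filter.Eventually.of_forall fun u => ?_)
      simp only
      rw [← integral_const_mul]
  have h3 : ∀ u ∈ Ω, ∑ y : X, ∫ v, g (u - v) ^ 2 * ce F (y : E d) v ≤ M' := by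
    intro u hu
    have hi : Integrable (fun v => g (u - v) ^ 2) := h.int.comp_sub_left u
    have hi2 : ∀ y : X, Integrable (fun v => g (u - v) ^ 2 * ce F (y : E d) v) := by
      intro y
      refine hi.mono' (hi.aestronglyMeasurable.mul (ce_meas hF _).aestronglyMeasurable)
        (Filter.Eventually.of_forall fun v => ?_)
      rw [Real.norm_eq_abs, abs_of_nonneg (mul_nonneg (sq_nonneg _) (ce_nonneg _ _ _))]
      exact mul_le_of_le_one_right (sq_nonneg _) (ce_le _ _ _)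
    rw [← integral_finsetSum _ fun y _ => hi2 y]
    refine le_trans ?_ (hM' u hu)
    rw [← integral_indicator hΩ]
    refine integral_mono (integrable_finsetSum _ fun y _ => hi2 y) (hi.indicator hΩ) fun v => ?_
    simp only
    rw [← Finset.mul_sum]
    by_cases hv : v ∈ Ω
    · rw [Set.indicator_of_mem hv]
      exact mul_le_of_le_one_right (sq_nonneg _) (ce_sum hD v)
    · rw [Set.indicator_of_notMem hv, Finset.sum_eq_zero, mul_zero]
      intro y _
      by_contra hne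
      exact hv (hcΩ y v hne)
  have h4 : ∫ u, ce F (x : E d) u * ∑ y : X, ∫ v, g (u - v) ^ 2 * ce F (y : E d) v ≤ f * M' := by
    calc ∫ u, ce F (x : E d) u * ∑ y : X, ∫ v, g (u - v) ^ 2 * ce F (y : E d) v ≤
          ∫ u, ce F (x : E d) u * M' := by
          refine integral_mono_of_nonneg (Filter.Eventually.of_forall fun u => ?_)
            ((ce_int hF hFt (x : E d)).mul_const M') (Filter.Eventually.of_forall fun u => ?_)
          · exact mul_nonneg (ce_nonneg _ _ _) (Finset.sum_nonneg fun y _ =>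
              integral_nonneg fun v => mul_nonneg (sq_nonneg _) (ce_nonneg _ _ _))
          · by_cases hu : ce F (x : E d) u = 0
            · simp only [hu, zero_mul, le_refl]
            · exact mul_le_mul_of_nonneg_left (h3 u (hcΩ x u hu)) (ce_nonneg _ _ _)
      _ = f * M' := by rw [integral_mul_const, ce_integral hF, hf]
  rw [h2] at h1
  refine h1.trans ((mul_le_mul_of_nonneg_left h4 (by positivity)).trans (le_of_eq ?_))
  rw [← hf]
  field_simp

/-- the discretized kernel is good -/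
theorem kk_of' (h : GS d r K L M g) (hF : MeasurableSet F) (hFt : volume F ≠ ⊤)
    (hF0 : 0 < volume.real F) (hFδ : F ⊆ closedBall 0 δ) (hD : Dis F X) (hK : 1 ≤ K)
    (hL : 0 ≤ L) (hM : 0 ≤ M) {Ω : Set (E d)} (hΩ : MeasurableSet Ω)
    (hcell : ∀ x ∈ X, ∀ a ∈ F, x + a ∈ Ω) {M' : ℝ} (hM0 : 0 ≤ M')
    (hM' : ∀ u ∈ Ω, ∫ v in Ω, g (u - v) ^ 2 ≤ M') :
    KK (fun x y : X => 1 + gX F g (x : E d) (y : E d)) K
      (L / volume.real F) √(M' / volume.real F) := by
  have hMf : 0 ≤ M' / volume.real F := by positivity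
  have hk := kk_of h hF hFt hF0 hFδ hD hK hL hM
  refine ⟨hk.K1, hk.hΛ, Real.sqrt_nonneg _, hk.nonneg, hk.le, fun x => ?_, fun y => ?_, hk.spec⟩
  · rw [Real.sq_sqrt hMf]
    refine le_trans (le_of_eq ?_) (gX_row' h hF hFt hF0 hD hΩ hcell hM' x)
    refine Finset.sum_congr rfl fun y _ => ?_
    ring
  · rw [Real.sq_sqrt hMf]
    refine le_trans (le_of_eq ?_) (gX_row' h hF hFt hF0 hD hΩ hcell hM' y)
    refine Finset.sum_congr rfl fun x _ => ?_
    rw [gX_symm h]
    ring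

/-- the product ansatz on a fine grid in the region `Ω` -/
lemma lpack_of' {r K W G f : ℝ} {s t : ℕ} {g : E d → ℝ} (hg : GK d r K g) (hr : 0 < r)
    (hWdef : W = r ^ d * V1 d) {X : Finset (E d)} {F : Set (E d)} {δ : ℝ} (hF : MeasurableSet F)
    (hFt : volume F ≠ ⊤) (hf : f = volume.real F) (hF0 : 0 < f)
    (hFδ : F ⊆ closedBall 0 δ) (hD : Dis F X) (hδ : 0 < δ) (hδ2 : (1 + 2 * δ) ^ d ≤ 2)
    {Ω : Set (E d)} (hΩ : MeasurableSet Ω) (hcell : ∀ x ∈ X, ∀ a ∈ F, x + a ∈ Ω) {χ : ℝ}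
    (hχ : 0 < χ)
    (hrow : ∀ g' : E d → ℝ, Rad g' → Measurable g' → (∀ x, ‖x‖ ≤ 1 + 2 * δ → g' x = -1) →
      (Integrable fun x => g' x ^ 2) → ∫ x, g' x ^ 2 ≤ 34 * V1 d →
      ∀ u ∈ Ω, ∫ v in Ω, g' (u - v) ^ 2 ≤ 34 * (χ * V1 d))
    (hP : Par K (χ * (V1 d / f)) (χ * W) G s t) :
    ∃ y : Finset X → ℝ, LPack d s t X y ∧ ∀ x, y {x} = G * f / (χ * V1 d) := by
  classical
  have hV1 := V1_pos d
  obtain ⟨V, hV⟩ : ∃ V : ℝ, V = χ * (V1 d / f) := ⟨_, rfl⟩
  rw [← hV] at hP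
  obtain ⟨W', hW'⟩ : ∃ W' : ℝ, W' = χ * W := ⟨_, rfl⟩
  rw [← hW'] at hP
  have hV0 := hP.hV
  have hW1 := hP.W1
  have hG := hP.hG
  have hrd : 0 < r ^ d := by positivity
  obtain ⟨c, hc⟩ : ∃ c : ℝ, c = r / (1 + 2 * δ) := ⟨_, rfl⟩
  have hc0 : 0 < c := by rw [hc]; positivity
  have hrc : r / c = 1 + 2 * δ := by
    rw [hc]
    field_simp
  have hcd : (c ^ d)⁻¹ ≤ 2 / r ^ d := by
    rw [hc, div_pow, inv_div]
    gcongr
  have hS := hg.scale hc0
  rw [hrc] at hS
  obtain ⟨g', hg'⟩ : ∃ g' : E d → ℝ, g' = fun x => g (c • x) := ⟨_, rfl⟩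
  rw [← hg'] at hS
  have hcd0 : 0 < c ^ d := by positivity
  have hF0' : 0 < volume.real F := by rw [← hf]; exact hF0
  have hrad : Rad g' := by
    intro x y hxy
    rw [hg']
    apply hg.rad
    rw [norm_smul, norm_smul, hxy]
  have hsq : ∫ x, g' x ^ 2 ≤ 34 * V1 d := by
    refine hS.sq.trans ?_
    calc 17 * (r ^ d * V1 d) * (c ^ d)⁻¹ ≤ 17 * (r ^ d * V1 d) * (2 / r ^ d) := by gcongr
      _ = 34 * V1 d := by
          field_simp
          norm_num
  have hrow' := hrow g' hrad hS.meas hS.core hS.int hsq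
  have hk1 := kk_of' hS hF hFt hF0' hFδ hD hP.K1 (by positivity) (by positivity) hΩ hcell
    (M' := 34 * (χ * V1 d)) (by positivity) hrow'
  rw [← hf] at hk1
  have hk : KK (fun x y : X => 1 + gX F g' (x : E d) (y : E d)) K (14 * V / W') √(34 * V) := by
    refine kk_mono hk1 ?_ ?_
    · calc 7 * (c ^ d)⁻¹ / f ≤ 7 * (2 / r ^ d) / f := by gcongr
        _ = 14 * V / W' := by
            rw [hV, hW', hWdef]
            field_simp
            norm_num
    · refine Real.sqrt_le_sqrt (le_of_eq ?_)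
      rw [hV]
      field_simp
  have hΛσ : 14 * V / W' ≤ √(34 * V) ^ 2 := by
    rw [Real.sq_sqrt (by positivity), div_le_iff₀ (by linarith)]
    nlinarith
  have hsym : ∀ x y : X, 1 + gX F g' (x : E d) (y : E d) = 1 + gX F g' (y : E d) (x : E d) := by
    intro x y
    rw [gX_symm hS]
  have hg0 : ∀ x : X, 1 + gX F g' (x : E d) (x : E d) = 0 := by
    intro x
    rw [gX_core hS hF hF0' hFδ (by rw [dist_self]; linarith)]
    norm_num
  refine ⟨yy (G / V) fun x y : X => 1 + gX F g' (x : E d) (y : E d), ⟨?_, ?_, ?_, ?_⟩, ?_⟩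
  · unfold yy pr
    simp
  · intro S u hu v hv huv hlt
    have h1 : gX F g' (u : E d) (v : E d) = -1 :=
      gX_core hS hF hF0' hFδ (by linarith)
    unfold yy pr
    rw [Finset.prod_eq_zero (i := (u, v)), mul_zero]
    · exact Finset.mem_offDiag.2 ⟨hu, hv, huv⟩
    · dsimp only
      rw [h1]
      norm_num
  · intro D E hDE
    refine nonneg_cond hk hsym (by positivity) hP.rho1 ?_ D E hDE
    have h2 := hP.big1
    rw [← div_le_one hV0] at h2
    refine le_trans (le_of_eq ?_) h2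
    ring
  · intro D E hDE a ha
    refine psd_cond2 hk hsym hg0 (N := Nv K (14 * V / W') √(34 * V) t)
      (fun u w hu hut hw hwt => ?_) hP.sm2 D E hDE a ha
    obtain ⟨u', rfl⟩ : ∃ u', u = u' + 1 := ⟨u - 1, by omega⟩
    exact BB_all2 hk hΛσ t u' w hwt
  · intro x
    unfold yy pr
    rw [Finset.card_singleton, pow_one, Finset.offDiag_singleton, Finset.prod_empty, mul_one, hV]
    field_simp

end Pool.Agent.Y570.LK
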