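import Mathlib
import Pool.Agent.Y570.LK.Disc
import Pool.Agent.Y509.KP.Grid

/-!
Y570/LK (helper570, MP_b5f63d_co): pseudo-packings of a thin shell.
-/

set_option autoImplicit false

open MeasureTheory Metric Filter Topology

open scoped RealInnerProductSpace ENNReal

namespace Pool.Agent.Y570.LK

open Pool.Agent.Y509.LS Pool.Agent.Y570.LS

variable {d : ℕ}

lemma ball_vol {r : ℝ} (hr : 0 < r) : volume.real (Metric.ball (0 : E d) r) = r ^ d * V1 d := by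
  unfold V1
  rw [measureReal_def, measureReal_def, Measure.addHaar_ball_of_pos volume 0 hr,
    ENNReal.toReal_mul, ENNReal.toReal_ofReal (by positivity), finrank_euclideanSpace_fin]

lemma shell_vol {a R : ℝ} (ha : 0 < a) (hR : a < R) :
    MeasurableSet {x : E d | a ≤ ‖x‖ ∧ ‖x‖ < R} ∧
    Bornology.IsBounded {x : E d | a ≤ ‖x‖ ∧ ‖x‖ < R} ∧
    volume.real {x : E d | a ≤ ‖x‖ ∧ ‖x‖ < R} = (R ^ d - a ^ d) * V1 d := by
  have h1 : {x : E d | a ≤ ‖x‖ ∧ ‖x‖ < R} = Metric.ball 0 R \ Metric.ball 0 a := by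
    ext x
    simp [and_comm]
  rw [h1]
  refine ⟨measurableSet_ball.diff measurableSet_ball, Metric.isBounded_ball.subset Set.sdiff_subset,
    ?_⟩
  rw [measureReal_sdiff (Metric.ball_subset_ball hR.le) measurableSet_ball
    measure_ball_lt_top.ne, ball_vol (ha.trans hR), ball_vol ha]
  ring

/-- continuity at `0` -/
lemma ev {P Q : ℝ → ℝ} (hP : Continuous P) (hQ : Continuous Q) (h : P 0 < Q 0) :
    ∀ᶠ x in 𝓝[>] (0 : ℝ), P x < Q x :=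
  (hP.continuousAt.eventually_lt hQ.continuousAt h).filter_mono nhdsWithin_le_nhds

theorem shell_bound (hd : 0 < d) {r K W G χ : ℝ} {s t : ℕ} {g : E d → ℝ} (hg : GK d r K g)
    (hr : 0 < r) (hWdef : W = r ^ d * V1 d) (ht : 1 ≤ t) (K1 : 1 ≤ K) (Kt : K ^ (t ^ 2) ≤ 2)
    (Ks : (K ^ s) ^ t ≤ 2) (hG : 1 ≤ G) (hχ : 0 < χ)
    (hW : ((t : ℝ) + 1) ^ (2 * t) * (6528 * G) ^ t ≤ χ * W) {a R T : ℝ} (ha : 0 < a)
    (haR : a < R) (hR : 1 < 2 * R ^ 2) (hκ : R ^ 2 - a ^ 2 < 1) (hT0 : 0 < T)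
    (hT1 : 1 - 1 / (4 * R ^ 2) + (R ^ 2 - a ^ 2) < T ^ 2)
    (hT2 : 1 - (1 - (R ^ 2 - a ^ 2)) ^ 2 / (4 * R ^ 2) < T ^ 2) (hχT : 35 * T ^ d ≤ 34 * χ)
    {B : ℝ} (hB : LBd d s t {x : E d | a ≤ ‖x‖ ∧ ‖x‖ < R} B) :
    G * (R ^ d - a ^ d) ≤ χ * B := by
  have hV1 := V1_pos d
  have hR0 : 0 < R := ha.trans haR
  obtain ⟨A₁, hA₁⟩ : ∃ A : ℝ, A = G * (2 ^ (s + 2 * t) * K ^ ((s + 2 * t) ^ 2)) := ⟨_, rfl⟩
  obtain ⟨A₂, hA₂⟩ : ∃ A : ℝ, A = G * (2 ^ s * K ^ (s ^ 2) * (3 * (2 * (t + 1) *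
    ((136 * (s + 1) ^ 2 * G) ^ t * (2 ^ t * 4))))) := ⟨_, rfl⟩
  have e1 : ∀ᶠ δ : ℝ in 𝓝[>] 0, (1 + 2 * δ) ^ d < 2 :=
    ev (by fun_prop) continuous_const (by norm_num)
  have e2 : ∀ A : ℝ, ∀ᶠ δ : ℝ in 𝓝[>] 0, A * δ ^ d < χ := by
    intro A
    refine ev (by fun_prop) continuous_const ?_
    rw [zero_pow hd.ne', mul_zero]
    exact hχ
  have e3 : ∀ᶠ δ : ℝ in 𝓝[>] 0, (1 + 2 * δ) ^ 2 < 2 * (R + δ) ^ 2 :=
    ev (by fun_prop) (by fun_prop) (by simpa using hR)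
  have e4 : ∀ᶠ δ : ℝ in 𝓝[>] 0, (R + δ) ^ 2 - (a - δ) ^ 2 < (1 + 2 * δ) ^ 2 :=
    ev (by fun_prop) (by fun_prop) (by simpa using hκ)
  have e5 : ∀ᶠ δ : ℝ in 𝓝[>] 0, (1 + 2 * δ) ^ 2 * (4 * (R + δ) ^ 2) - (1 + 2 * δ) ^ 4 +
      ((R + δ) ^ 2 - (a - δ) ^ 2) * (4 * (R + δ) ^ 2) < T ^ 2 * (4 * (R + δ) ^ 2) := by
    refine ev (by fun_prop) (by fun_prop) ?_
    have h1 := mul_lt_mul_of_pos_right hT1 (show 0 < 4 * R ^ 2 by positivity)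
    have h2 : (1 - 1 / (4 * R ^ 2) + (R ^ 2 - a ^ 2)) * (4 * R ^ 2) =
        4 * R ^ 2 - 1 + (R ^ 2 - a ^ 2) * (4 * R ^ 2) := by
      field_simp
    rw [h2] at h1
    simpa using h1
  have e6 : ∀ᶠ δ : ℝ in 𝓝[>] 0, (1 + 2 * δ) ^ 2 * (4 * (R + δ) ^ 2) -
      ((1 + 2 * δ) ^ 2 - ((R + δ) ^ 2 - (a - δ) ^ 2)) ^ 2 <
      T ^ 2 * ((1 + 2 * δ) ^ 2 * (4 * (R + δ) ^ 2)) := by
    refine ev (by fun_prop) (by fun_prop) ?_
    have h1 := mul_lt_mul_of_pos_right hT2 (show 0 < 4 * R ^ 2 by positivity)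
    have h2 : (1 - (1 - (R ^ 2 - a ^ 2)) ^ 2 / (4 * R ^ 2)) * (4 * R ^ 2) =
        4 * R ^ 2 - (1 - (R ^ 2 - a ^ 2)) ^ 2 := by
      field_simp
    rw [h2] at h1
    simpa using h1
  have e7 : ∀ᶠ δ : ℝ in 𝓝[>] 0, ((1 + 2 * δ) ^ 2 - ((R + δ) ^ 2 - (a - δ) ^ 2)) ^ 2 <
      1 / 2 * ((1 + 2 * δ) ^ 2 * (4 * (R + δ) ^ 2)) := by
    refine ev (by fun_prop) (by fun_prop) ?_
    have h1 : 0 < 1 - (R ^ 2 - a ^ 2) := by linarith
    have h2 : 1 - (R ^ 2 - a ^ 2) ≤ 1 := by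
      have : a ^ 2 ≤ R ^ 2 := pow_le_pow_left₀ ha.le haR.le 2
      linarith
    have h3 : (1 - (R ^ 2 - a ^ 2)) ^ 2 < 1 / 2 * (4 * R ^ 2) := by nlinarith
    simpa using h3
  have e8 : ∀ᶠ δ : ℝ in 𝓝[>] 0, δ < a := ev continuous_id continuous_const ha
  obtain ⟨δ, h1, h2, h3, h4, h5, h6, h7, h8, h9, hδ⟩ := (e1.and ((e2 A₁).and ((e2 A₂).and
    (e3.and (e4.and (e5.and (e6.and (e7.and (e8.and self_mem_nhdsWithin))))))))).exists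
  have hδ0 : 0 < δ := hδ
  obtain ⟨hΛ, hb, hvol⟩ := shell_vol (d := d) ha haR
  obtain ⟨X, F, hXΛ, hF, hF0, hFt, hFδ, hdis, hcard⟩ :=
    Pool.Agent.Y509.KP.exists_grid hΛ hb hδ0
  obtain ⟨f, hf⟩ : ∃ f : ℝ, f = volume.real F := ⟨_, rfl⟩
  rw [← hf] at hF0 hcard
  have hfδ : f ≤ δ ^ d * V1 d := by
    rw [hf, ← vol_cb hδ0.le]
    exact measureReal_mono hFδ (isCompact_closedBall _ _).measure_lt_top.ne
  have hbig : ∀ A : ℝ, A * δ ^ d < χ → A ≤ χ * (V1 d / f) := by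
    intro A hA
    rw [← mul_div_assoc, le_div_iff₀ hF0]
    rcases le_or_gt A 0 with h | h
    · have : A * f ≤ 0 := mul_nonpos_of_nonpos_of_nonneg h hF0.le
      have h' : 0 < χ * V1 d := by positivity
      linarith
    · calc A * f ≤ A * (δ ^ d * V1 d) := mul_le_mul_of_nonneg_left hfδ h.le
        _ = A * δ ^ d * V1 d := by ring
        _ ≤ χ * V1 d := mul_le_mul_of_nonneg_right hA.le hV1.le
  have hP : Par K (χ * (V1 d / f)) (χ * W) G s t := by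
    refine ⟨ht, K1, Kt, Ks, hG, by positivity, hW, ?_, ?_⟩
    · rw [← hA₁]
      exact hbig _ h2
    · rw [← hA₂]
      exact hbig _ h3
  -- the region
  obtain ⟨Ω, hΩdef⟩ : ∃ Ω : Set (E d), Ω = {u : E d | a - δ ≤ ‖u‖ ∧ ‖u‖ ≤ R + δ} := ⟨_, rfl⟩
  have hΩ : MeasurableSet Ω := by
    have h10 : Ω = {u : E d | a - δ ≤ ‖u‖} ∩ {u : E d | ‖u‖ ≤ R + δ} := by
      rw [hΩdef]
      rfl
    rw [h10]
    exact (measurableSet_le measurable_const measurable_norm).inter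
      (measurableSet_le measurable_norm measurable_const)
  have hcell : ∀ x ∈ X, ∀ b ∈ F, x + b ∈ Ω := by
    intro x hx b hb
    have hx1 : a ≤ ‖x‖ ∧ ‖x‖ < R := hXΛ hx
    have hb1 := hFδ hb
    rw [mem_closedBall_zero_iff] at hb1
    rw [hΩdef]
    have h10 := norm_add_le x b
    have h11 : ‖x‖ ≤ ‖x + b‖ + ‖b‖ := by
      calc ‖x‖ = ‖(x + b) - b‖ := by rw [add_sub_cancel_right]
        _ ≤ _ := norm_sub_le _ _
    exact ⟨by linarith [hx1.1], by linarith [hx1.2]⟩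
  have hr0 : (0 : ℝ) < 1 + 2 * δ := by positivity
  have hR' : 0 < R + δ := by positivity
  obtain ⟨κ, hκ'⟩ : ∃ κ : ℝ, κ = (R + δ) ^ 2 - (a - δ) ^ 2 := ⟨_, rfl⟩
  rw [← hκ'] at h5 h6 h7 h8
  have hκ0 : 0 ≤ κ := by
    rw [hκ']
    have : (a - δ) ^ 2 ≤ (R + δ) ^ 2 := pow_le_pow_left₀ (by linarith) (by linarith) 2
    linarith
  obtain ⟨c, hc⟩ : ∃ c : ℝ, c = ((1 + 2 * δ) ^ 2 - κ) / (2 * (R + δ) * (1 + 2 * δ)) := ⟨_, rfl⟩
  have hc0 : 0 ≤ c := by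
    rw [hc]
    exact div_nonneg (by linarith) (by positivity)
  have hcsq : c ^ 2 * ((1 + 2 * δ) ^ 2 * (4 * (R + δ) ^ 2)) = ((1 + 2 * δ) ^ 2 - κ) ^ 2 := by
    rw [hc, div_pow]
    field_simp
    ring
  have hpos : 0 < (1 + 2 * δ) ^ 2 * (4 * (R + δ) ^ 2) := by positivity
  have hrow : ∀ g' : E d → ℝ, Rad g' → Measurable g' → (∀ x, ‖x‖ ≤ 1 + 2 * δ → g' x = -1) →
      (Integrable fun x => g' x ^ 2) → ∫ x, g' x ^ 2 ≤ 34 * V1 d →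
      ∀ u ∈ Ω, ∫ v in Ω, g' (u - v) ^ 2 ≤ 34 * (χ * V1 d) := by
    intro g' k1 k2 k3 k4 k5 u hu
    rw [hΩdef] at hu
    obtain ⟨hu1, hu2⟩ := hu
    have h10 := row (T := T) (κ := κ) (R := R + δ) (c := c) hd k1 k2 k3 k4 k5 hr0 hR' h4.le hκ0
      hc0 ?_ hT0.le ?_ ?_ ?_ (u := u) (by linarith) hu2 ?_ hΩ (fun v hv => ?_)
    · refine h10.trans ?_
      calc T ^ d * (V1 d + 34 * V1 d) = 35 * T ^ d * V1 d := by ring
        _ ≤ 34 * χ * V1 d := mul_le_mul_of_nonneg_right hχT hV1.le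
        _ = 34 * (χ * V1 d) := by ring
    · have h11 : c ^ 2 * ((1 + 2 * δ) ^ 2 * (4 * (R + δ) ^ 2)) ≤
          1 / 2 * ((1 + 2 * δ) ^ 2 * (4 * (R + δ) ^ 2)) := by
        rw [hcsq]
        exact h8.le
      exact le_of_mul_le_mul_right h11 hpos
    · have h11 : ((1 + 2 * δ) ^ 2 - (1 + 2 * δ) ^ 4 / (4 * (R + δ) ^ 2) + κ) *
          (4 * (R + δ) ^ 2) ≤ T ^ 2 * (4 * (R + δ) ^ 2) := by
        refine le_trans (le_of_eq ?_) h6.le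
        field_simp
      exact le_of_mul_le_mul_right h11 (by positivity)
    · have h11 : (1 - c ^ 2) * ((1 + 2 * δ) ^ 2 * (4 * (R + δ) ^ 2)) ≤
          T ^ 2 * ((1 + 2 * δ) ^ 2 * (4 * (R + δ) ^ 2)) := by
        rw [sub_mul, one_mul, hcsq]
        exact h7.le
      exact le_of_mul_le_mul_right h11 hpos
    · rw [hc]
      refine le_of_eq ?_
      field_simp
    · rw [hκ']
      have : (a - δ) ^ 2 ≤ ‖u‖ ^ 2 := pow_le_pow_left₀ (by linarith) hu1 2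
      linarith
    · rw [hΩdef] at hv
      exact hv.2
  obtain ⟨y, hy, hy1⟩ := lpack_of' hg hr hWdef hF hFt hf hF0 hFδ hdis hδ0 h1.le hΩ hcell hχ
    hrow hP
  have h10 := hB X hXΛ y hy
  simp_rw [hy1] at h10
  rw [Finset.sum_const, nsmul_eq_mul, Finset.card_univ, Fintype.card_coe] at h10
  have h11 : (X.card : ℝ) * (G * f / (χ * V1 d)) * (χ * V1 d) = G * (X.card * f) := by
    field_simp
  have h12 : G * (R ^ d - a ^ d) * V1 d ≤ χ * B * V1 d := by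
    calc G * (R ^ d - a ^ d) * V1 d = G * ((R ^ d - a ^ d) * V1 d) := by ring
      _ ≤ G * (X.card * f) := by
          rw [← hvol]
          exact mul_le_mul_of_nonneg_left hcard (by linarith)
      _ = (X.card : ℝ) * (G * f / (χ * V1 d)) * (χ * V1 d) := h11.symm
      _ ≤ B * (χ * V1 d) := mul_le_mul_of_nonneg_right h10 (by positivity)
      _ = χ * B * V1 d := by ring
  exact le_of_mul_le_mul_right h12 hV1

end Pool.Agent.Y570.LK
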