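import Mathlib
import Pool.Agent.Y570.LK.Abs
import Pool.Agent.Y570.LK.Bar
import Pool.Agent.Y570.SP.Main

/-!
Y570/LK (helper570, MP_b5f63d_co): the Lasserre hierarchy for spherical codes.
-/

set_option autoImplicit false
set_option linter.unusedSectionVars false

open MeasureTheory Filter Topology

namespace Pool.Agent.Y570.LK

open Pool.Agent.Y509.LS (LPack LBd)
open Pool.Agent.Y570.SP (dirs KC KS SBound SCode scode_of)

abbrev E (n : ℕ) := EuclideanSpace ℝ (Fin n)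

variable {n s t : ℕ} {c : ℝ}

open Classical in
/-- pseudo-codes of level `(s, t)` on finite sets of unit vectors, with inner products `≤ c` -/
structure LCode (n s t : ℕ) (c : ℝ) (X : Finset (E n)) (y : Finset X → ℝ) : Prop where
  one : y ∅ = 1
  sep : ∀ S : Finset X, ∀ u ∈ S, ∀ v ∈ S, u ≠ v → c < inner ℝ (u : E n) v → y S = 0
  nonneg : ∀ D F : Finset X, D.card + F.card ≤ s + 2 * t → 0 ≤ Pool.Agent.Y570.KP.cond y D F ∅
  psd : ∀ D F : Finset X, D.card + F.card ≤ s → ∀ a : Finset X → ℝ,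
    (∀ S, t < S.card → a S = 0) → 0 ≤ ∑ S, ∑ T, a S * a T * Pool.Agent.Y570.KP.cond y D F (S ∪ T)

/-- `B` bounds all pseudo-codes of level `(s, t)` -/
def LSB (n s t : ℕ) (c B : ℝ) : Prop :=
  ∀ X : Finset (E n), (∀ x ∈ X, ‖x‖ = 1) → ∀ y : Finset X → ℝ, LCode n s t c X y → ∑ x, y {x} ≤ B

/-- the bound of level `(s, t)` for spherical codes -/
noncomputable def LS (n s t : ℕ) (c : ℝ) : ℝ := sInf {B : ℝ | LSB n s t c B}

open Classical in
lemma lcode_iff (X : Finset (E n)) (y : Finset X → ℝ) :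
    LCode n s t c X y ↔ LC s t (fun u v : X => c < inner ℝ (u : E n) v) y :=
  ⟨fun h => ⟨h.one, h.sep, h.nonneg, h.psd⟩, fun h => ⟨h.one, h.sep, h.nonneg, h.psd⟩⟩

open Classical in
lemma lpack_lc {X : Finset (E n)} {y : Finset X → ℝ} (h : LPack n s t X y) :
    LC s t (fun u v : X => dist (u : E n) v < 1) y :=
  ⟨h.one, h.sep, h.nonneg, h.psd⟩

lemma lsb_card {B : ℝ} (h : LSB n s t c B) {C : Finset (E n)} (hC : ∀ x ∈ C, ‖x‖ = 1)
    (hs : ∀ x ∈ C, ∀ z ∈ C, x ≠ z → inner ℝ x z ≤ c) : (C.card : ℝ) ≤ B := by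
  classical
  have h1 := h C hC (fun _ => 1) ((lcode_iff _ _).2 (lc_one fun u v huv h' => by
    have := hs u u.2 v v.2 (fun h'' => huv (Subtype.ext h''))
    linarith))
  simpa using h1

lemma lsb_nonneg {B : ℝ} (h : LSB n s t c B) : 0 ≤ B := by
  have := lsb_card h (C := ∅) (by simp) (by simp)
  simpa using this

lemma lsb_s {B : ℝ} (h : LSB n s t c B) : LSB n (s + 1) t c B :=
  fun X hX y hy => h X hX y ((lcode_iff _ _).2 ((lcode_iff _ _).1 hy).mono_s)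

lemma lsb_st {B : ℝ} (h : LSB n (s + 1) t c B) : LSB n s (t + 1) c B :=
  fun X hX y hy => h X hX y ((lcode_iff _ _).2 ((lcode_iff _ _).1 hy).mono_st)

/-- comparison with the `k`-point bounds -/
lemma lsb_of (ht : 1 ≤ t) {B : ℝ} (h : SBound n (s + t + 1) c B) : LSB n s t c B :=
  fun X hX y hy => h X hX y (scode_of (((lcode_iff _ _).1 hy).kc' ht))

lemma exists_lsb (ht : 1 ≤ t) (hc : c < 1) : ∃ B, LSB n s t c B := by
  obtain ⟨B, hB⟩ := Pool.Agent.Y570.SP.exists_sbound (n := n) (k := s + t + 1) (by omega) hc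
  exact ⟨B, lsb_of ht hB⟩

lemma LS_le {B : ℝ} (h : LSB n s t c B) : LS n s t c ≤ B :=
  csInf_le ⟨0, fun _ h' => lsb_nonneg h'⟩ h

lemma le_LS (ht : 1 ≤ t) (hc : c < 1) {b : ℝ} (h : ∀ B, LSB n s t c B → b ≤ B) :
    b ≤ LS n s t c := le_csInf (exists_lsb ht hc) h

/-- the hierarchy is at least as strong as the hierarchy of the `k`-point bounds -/
theorem LS_le_KS (ht : 1 ≤ t) (hc : c < 1) : LS n s t c ≤ KS n (s + t + 1) c :=
  Pool.Agent.Y570.SP.le_KS (by omega) hc fun _ hB => LS_le (lsb_of ht hB)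

/-- exactness -/
theorem lsb_exact {α : ℕ} (ht : 1 ≤ t) (hst : α ≤ s + t)
    (hα : ∀ C : Finset (E n), (∀ x ∈ C, ‖x‖ = 1) → (∀ x ∈ C, ∀ z ∈ C, x ≠ z → inner ℝ x z ≤ c) →
      C.card ≤ α) : LSB n s t c α :=
  lsb_of ht (Pool.Agent.Y570.SP.sbound_exact (by omega) hα)

/-- **Transfer to shells.** -/
theorem transfer (hn : 2 ≤ n) {a R B : ℝ} (hc : c < 1) (ha : 0 < a)
    (hR : (R - a) ^ 2 + 2 * (1 - c) * R ^ 2 ≤ 1) (h : LSB n s t c B) :
    LBd n s t {x : E n | a ≤ ‖x‖ ∧ ‖x‖ < R} B := by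
  classical
  intro X hX y hy
  obtain ⟨ψ, h1, h2, h3⟩ := dirs hn hc ha hR X fun x hx => hX hx
  obtain ⟨X', hX'⟩ : ∃ X' : Finset (E n), X' = X.image ψ := ⟨_, rfl⟩
  have hmem : ∀ x : X, ψ x ∈ X' := fun x => by
    rw [hX']
    exact Finset.mem_image_of_mem ψ x.2
  obtain ⟨e', he'⟩ : ∃ e' : X ≃ X', ∀ x, (e' x : E n) = ψ x := by
    refine ⟨Equiv.ofBijective (fun x : X => (⟨ψ x, hmem x⟩ : X')) ⟨?_, ?_⟩, fun x => rfl⟩
    · intro x z hxz
      exact Subtype.ext (h1 x.2 z.2 (Subtype.mk.inj hxz))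
    · rintro ⟨w, hw⟩
      rw [hX', Finset.mem_image] at hw
      obtain ⟨x, hx, rfl⟩ := hw
      exact ⟨⟨x, hx⟩, rfl⟩
  have h4 : LC s t (fun u v : X' => c < inner ℝ (u : E n) v)
      (fun S => y (S.map e'.symm.toEmbedding)) := by
    refine (lpack_lc hy).transport e'.symm fun u v huv => ?_
    obtain ⟨x, rfl⟩ := e'.surjective u
    obtain ⟨z, rfl⟩ := e'.surjective v
    rw [e'.symm_apply_apply, e'.symm_apply_apply]
    rw [he', he'] at huv
    exact h3 x x.2 z z.2 huv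
  have h5 := h X' (fun w hw => by
    rw [hX', Finset.mem_image] at hw
    obtain ⟨x, hx, rfl⟩ := hw
    exact h2 x hx) _ ((lcode_iff _ _).2 h4)
  rw [Pool.Agent.Y570.SP.sum_transport] at h5
  exact h5

end Pool.Agent.Y570.LK
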