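import Mathlib
import Pool.Agent.Y570.LK.Code
import Pool.Agent.Y509.LS.B2

/-!
Y570/LK (helper570, MP_b5f63d_co): the barrier for spherical codes.
-/

set_option autoImplicit false
set_option linter.unusedSectionVars false

open MeasureTheory Filter Topology

namespace Pool.Agent.Y570.LK

open Pool.Agent.Y509.LS (kern W_low pow_le_two poly_exp V1 V1_pos)
open Pool.Agent.TH41.LP.VOLf (pow_exp)

/-- the geometry of the thin shell -/
lemma geo {c : ℝ} (hc0 : 0 < c) (hc1 : c < 1) : ∀ᶠ n : ℕ in atTop, ∃ a R T : ℝ,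
    0 < a ∧ a < R ∧ 1 < 2 * R ^ 2 ∧ R ^ 2 - a ^ 2 < 1 ∧ 0 < T ∧
    1 - 1 / (4 * R ^ 2) + (R ^ 2 - a ^ 2) < T ^ 2 ∧
    1 - (1 - (R ^ 2 - a ^ 2)) ^ 2 / (4 * R ^ 2) < T ^ 2 ∧
    (R - a) ^ 2 + 2 * (1 - c) * R ^ 2 ≤ 1 ∧
    Real.exp (1 / 2 * Real.log ((1 + c) / 2) * n) ≤ T ^ n ∧
    T ^ n ≤ Real.exp (1 / 2 * Real.log ((1 + c) / 2) * n + 2 / (1 - c)) ∧
    Real.exp (-(1 / 2 * Real.log (2 * (1 - c)) * n) - 1 / (1 - c)) ≤ 2 * (R ^ n - a ^ n) := by
  have hq : 0 < 1 - c := by linarith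
  filter_upwards [eventually_ge_atTop 2,
    (tendsto_natCast_atTop_atTop (R := ℝ)).eventually_ge_atTop (1 / (2 * c) + 2 / (1 - c))]
    with n hn2 hnc
  obtain ⟨x, hx⟩ : ∃ x : ℝ, x = (n : ℝ) := ⟨_, rfl⟩
  rw [← hx] at hnc ⊢
  have hx2 : (2 : ℝ) ≤ x := by rw [hx]; exact_mod_cast hn2
  have hx0 : 0 < x := by linarith
  have hxa : 1 / (2 * c) < x := by
    have : 0 < 2 / (1 - c) := by positivity
    linarith
  have hxb : 2 / (1 - c) < x := by
    have : 0 < 1 / (2 * c) := by positivity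
    linarith
  obtain ⟨q, hqq⟩ : ∃ q : ℝ, q = 1 - c := ⟨_, rfl⟩
  rw [← hqq] at hq hxb ⊢
  have hc : c = 1 - q := by linarith
  obtain ⟨P, hP⟩ : ∃ P : ℝ, P = 2 * q + 1 / x ^ 2 := ⟨_, rfl⟩
  have hP0 : 0 < P := by rw [hP]; positivity
  obtain ⟨R, hR⟩ : ∃ R : ℝ, R = √(1 / P) := ⟨_, rfl⟩
  have hR0 : 0 < R := by rw [hR]; positivity
  have hR2 : R ^ 2 = 1 / P := by rw [hR, Real.sq_sqrt (by positivity)]
  have hRP : R ^ 2 * P = 1 := by rw [hR2]; field_simp
  obtain ⟨A, hA⟩ : ∃ A : ℝ, A = (1 + c) / 2 := ⟨_, rfl⟩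
  have hA0 : 1 / 2 < A := by rw [hA]; linarith
  have hA1 : A < 1 := by rw [hA]; linarith
  obtain ⟨T, hT⟩ : ∃ T : ℝ, T = √(A + 2 / q / x) := ⟨_, rfl⟩
  have hT0 : 0 < T := by rw [hT]; positivity
  have hT2 : T ^ 2 = A + 2 / q / x := by rw [hT, Real.sq_sqrt (by positivity)]
  have hix : 0 < 1 / x := by positivity
  have hix1 : 1 / x ≤ 1 / 2 := by
    rw [div_le_div_iff₀ hx0 (by norm_num)]
    linarith
  have hx3 : 1 / x ^ 2 < 2 * c := by
    have h1 : 1 / x < 2 * c := by
      rw [div_lt_iff₀ (by positivity)] at hxa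
      rw [div_lt_iff₀ hx0]
      linarith
    have h2 : 1 / x ^ 2 = 1 / x * (1 / x) := by field_simp
    rw [h2]
    have h3 := mul_le_mul_of_nonneg_left (hix1.trans (by norm_num : (1 : ℝ) / 2 ≤ 1)) hix.le
    linarith
  have hκ : R ^ 2 - (R * (1 - 1 / x)) ^ 2 = R ^ 2 * (2 * (1 / x) - (1 / x) ^ 2) := by ring
  have hP2 : 2 * q ≤ P := by
    rw [hP]
    have : 0 < 1 / x ^ 2 := by positivity
    linarith
  have hR2le : R ^ 2 * (2 * q) ≤ 1 := by
    rw [← hRP]
    exact mul_le_mul_of_nonneg_left hP2 (by positivity)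
  have h4R : 1 / (4 * R ^ 2) = P / 4 := by
    rw [hR2]
    field_simp
  have hκle : R ^ 2 * (2 * (1 / x) - (1 / x) ^ 2) ≤ 1 / q / x := by
    rw [div_div, le_div_iff₀ (by positivity)]
    have h1 : R ^ 2 * (2 * (1 / x) - (1 / x) ^ 2) * (q * x) =
        R ^ 2 * (2 * q) * (1 - 1 / x / 2) := by
      field_simp
    rw [h1]
    have h2 : 0 ≤ R ^ 2 * (2 * q) := by positivity
    have h3 := mul_le_mul_of_nonneg_left (show 1 - 1 / x / 2 ≤ 1 by linarith) h2
    linarith
  have hqx : 2 / q / x < 1 := by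
    rw [div_lt_one hx0]
    exact hxb
  have hqx0 : 0 < 1 / q / x := by positivity
  have hqx2 : 2 / q / x = 2 * (1 / q / x) := by ring
  have hq1 : q < 1 := by linarith
  have hqx3 : 1 / x ≤ 1 / q / x := by
    have : (1 : ℝ) ≤ 1 / q := by
      rw [le_div_iff₀ hq]
      linarith
    gcongr
  refine ⟨R * (1 - 1 / x), R, T, mul_pos hR0 (by linarith), ?_, ?_, ?_, hT0, ?_, ?_, ?_, ?_, ?_, ?_⟩
  · have h1 : R * (1 - 1 / x) = R - R * (1 / x) := by ring
    have h2 := mul_pos hR0 hix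
    rw [h1]
    linarith
  · rw [hR2, mul_one_div, lt_div_iff₀ hP0, hP]
    linarith
  · rw [hκ]
    linarith
  · rw [hκ, h4R, hT2, hqx2, hP, hA]
    have : 0 < 1 / x ^ 2 := by positivity
    linarith
  · rw [hκ, hT2, hqx2]
    obtain ⟨κ, hκd⟩ : ∃ κ : ℝ, κ = R ^ 2 * (2 * (1 / x) - (1 / x) ^ 2) := ⟨_, rfl⟩
    rw [← hκd]
    have h1 : (1 - κ) ^ 2 / (4 * R ^ 2) = (1 - 2 * κ + κ ^ 2) * (P / 4) := by
      rw [← h4R]
      ring
    have h2 : κ * P = 2 * (1 / x) - (1 / x) ^ 2 := by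
      rw [hκd]
      calc R ^ 2 * (2 * (1 / x) - (1 / x) ^ 2) * P = (R ^ 2 * P) * (2 * (1 / x) - (1 / x) ^ 2) := by
            ring
        _ = _ := by rw [hRP, one_mul]
    have h3 : 0 ≤ κ ^ 2 * (P / 4) := by positivity
    have h4 : P / 4 = q / 2 + 1 / x ^ 2 / 4 := by rw [hP]; ring
    have h5 : 0 < 1 / x ^ 2 := by positivity
    have h6 : (1 - 2 * κ + κ ^ 2) * (P / 4) = P / 4 - κ * P / 2 + κ ^ 2 * (P / 4) := by ring
    have h7 : 0 ≤ (1 / x) ^ 2 := by positivity
    rw [h4] at h3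
    rw [h1, h6, h2, h4, hA, hc]
    linarith
  · have h1 : (R - R * (1 - 1 / x)) ^ 2 + 2 * q * R ^ 2 = R ^ 2 * P := by
      rw [hP]
      field_simp
      ring
    rw [h1, hRP]
  · rw [hx, pow_exp _ hT0 n]
    refine Real.exp_le_exp.2 ?_
    have h1 : Real.log T = 1 / 2 * Real.log (A + 2 / q / x) := by
      rw [hT, Real.log_sqrt (by positivity)]
      ring
    rw [h1, ← hA]
    have h2 : Real.log A ≤ Real.log (A + 2 / q / x) :=
      Real.log_le_log (by linarith) (by
        have : 0 < 2 / q / x := by positivity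
        linarith)
    have h3 := mul_le_mul_of_nonneg_left h2 (show 0 ≤ (n : ℝ) * (1 / 2) by positivity)
    calc 1 / 2 * Real.log A * (n : ℝ) = n * (1 / 2) * Real.log A := by ring
      _ ≤ n * (1 / 2) * Real.log (A + 2 / q / x) := h3
      _ = n * (1 / 2 * Real.log (A + 2 / q / x)) := by ring
  · rw [pow_exp _ hT0 n]
    refine Real.exp_le_exp.2 ?_
    have h1 : Real.log T = 1 / 2 * Real.log (A + 2 / q / x) := by
      rw [hT, Real.log_sqrt (by positivity)]
      ring
    rw [h1, ← hA, ← hx]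
    have h2 : Real.log (A + 2 / q / x) ≤ Real.log A + 2 * (2 / q / x) := by
      have h3 : A + 2 / q / x = A * (1 + 2 / q / x / A) := by
        field_simp
      rw [h3, Real.log_mul (by positivity) (by positivity)]
      have h4 := Real.log_le_sub_one_of_pos (show 0 < 1 + 2 / q / x / A by positivity)
      have h5 : 2 / q / x / A ≤ 2 * (2 / q / x) := by
        rw [div_le_iff₀ (by linarith)]
        have h6 := mul_le_mul_of_nonneg_left hA0.le (show 0 ≤ 2 * (2 / q / x) by positivity)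
        linarith
      linarith
    have h3 : x * (1 / 2 * (Real.log A + 2 * (2 / q / x))) =
        1 / 2 * Real.log A * x + 2 / q := by
      field_simp
    rw [← h3]
    refine mul_le_mul_of_nonneg_left ?_ hx0.le
    linarith
  · have h1 : (R * (1 - 1 / x)) ^ n ≤ R ^ n * (1 / 2) := by
      rw [mul_pow]
      refine mul_le_mul_of_nonneg_left ?_ (by positivity)
      have h2 : 1 - 1 / x ≤ Real.exp (-(1 / x)) := by
        have := Real.add_one_le_exp (-(1 / x))
        linarith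
      calc (1 - 1 / x) ^ n ≤ Real.exp (-(1 / x)) ^ n :=
            pow_le_pow_left₀ (by linarith) h2 n
        _ = Real.exp (-1) := by
            rw [← Real.exp_nat_mul, ← hx]
            congr 1
            field_simp
        _ ≤ 1 / 2 := by
            rw [Real.exp_neg, inv_eq_one_div]
            refine one_div_le_one_div_of_le (by norm_num) ?_
            linarith [Real.add_one_le_exp (1 : ℝ)]
    refine le_trans ?_ (show R ^ n ≤ 2 * (R ^ n - (R * (1 - 1 / x)) ^ n) by linarith)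
    rw [pow_exp _ hR0 n]
    refine Real.exp_le_exp.2 ?_
    have h2 : Real.log R = -(1 / 2 * Real.log P) := by
      rw [hR, Real.log_sqrt (by positivity), one_div, Real.log_inv]
      ring
    have h3 : Real.log P ≤ Real.log (2 * q) + 1 / (2 * q) / x ^ 2 := by
      have h4 : P = 2 * q * (1 + 1 / (2 * q) / x ^ 2) := by
        rw [hP]
        field_simp
      rw [h4, Real.log_mul (by positivity) (by positivity)]
      have h5 := Real.log_le_sub_one_of_pos (show 0 < 1 + 1 / (2 * q) / x ^ 2 by positivity)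
      linarith
    have h4 : x * (1 / 2 * (1 / (2 * q) / x ^ 2)) ≤ 1 / q := by
      have h5 : x * (1 / 2 * (1 / (2 * q) / x ^ 2)) = 1 / q * (1 / x) / 4 := by
        field_simp
        norm_num
      rw [h5]
      have h6 := mul_le_mul_of_nonneg_left (hix1.trans (by norm_num : (1 : ℝ) / 2 ≤ 1))
        (show 0 ≤ 1 / q by positivity)
      have h7 : 0 < 1 / q := by positivity
      linarith
    rw [h2, ← hx]
    have h5 := mul_le_mul_of_nonneg_left h3 (show 0 ≤ x * (1 / 2) by positivity)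
    have h6 : x * (1 / 2) * (Real.log (2 * q) + 1 / (2 * q) / x ^ 2) =
        1 / 2 * Real.log (2 * q) * x + x * (1 / 2 * (1 / (2 * q) / x ^ 2)) := by ring
    rw [h6] at h5
    have h7 : x * -(1 / 2 * Real.log P) = -(x * (1 / 2) * Real.log P) := by ring
    rw [h7]
    linarith

/-- **The barrier for spherical codes.** -/
theorem barrier {c : ℝ} (hc0 : 4 / Real.exp 1 - 1 < c) (hc1 : c < 1) {u : ℝ} (hu : 0 < u) :
    ∃ κ : ℝ, 0 < κ ∧ ∀ᶠ n : ℕ in atTop, ∀ s t : ℕ, 1 ≤ t →
      (t : ℝ) * Real.log (t + 1) ≤ κ * n → (s : ℝ) ≤ Real.exp (κ * n) →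
      ∀ B : ℝ, LSB n s t c B →
      Real.exp (-(1 / 2 * Real.log (1 - c ^ 2) * n) +
        (1 / 2 * Real.log (Real.exp 1 * (1 + c) / 4) - u) * n / t) ≤ B := by
  have hpi := Real.pi_pos
  have hl2 : 0 < Real.log 2 := Real.log_pos (by norm_num)
  have he := Real.exp_pos 1
  have he4 : Real.exp 1 < 4 := by linarith [Real.exp_one_lt_d9]
  have hc00 : 0 < c := by
    have : 1 < 4 / Real.exp 1 := by
      rw [lt_div_iff₀ he]
      linarith
    linarith
  have hq : 0 < 1 - c := by linarith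
  obtain ⟨E, hE⟩ : ∃ E : ℝ, E = 1 / 2 * Real.log (Real.exp 1 * (1 + c) / 4) := ⟨_, rfl⟩
  have hE0 : 0 < E := by
    rw [hE]
    refine mul_pos (by norm_num) (Real.log_pos ?_)
    rw [lt_div_iff₀ (by norm_num), one_mul]
    have h1 := mul_lt_mul_of_pos_left hc0 he
    have h2 : Real.exp 1 * (4 / Real.exp 1 - 1) = 4 - Real.exp 1 := by
      field_simp
    rw [h2] at h1
    linarith
  have hE1 : E ≤ 1 := by
    rw [hE]
    have h1 := Real.log_le_sub_one_of_pos (show 0 < Real.exp 1 * (1 + c) / 4 by positivity)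
    have h2 := mul_le_mul_of_nonneg_left (show 1 + c ≤ 2 by linarith) he.le
    linarith
  have hEeq : E = 1 / 2 * (1 - Real.log 2) + 1 / 2 * Real.log ((1 + c) / 2) := by
    rw [hE]
    have h1 : Real.exp 1 * (1 + c) / 4 = Real.exp 1 * ((1 + c) / 2) / 2 := by ring
    rw [h1, Real.log_div (by positivity) (by norm_num), Real.log_mul (by positivity) (by positivity),
      Real.log_exp]
    ring
  obtain ⟨w, hw⟩ : ∃ w : ℝ, w = min u E := ⟨_, rfl⟩
  have hw0 : 0 < w := by rw [hw]; exact lt_min hu hE0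
  have hwu : w ≤ u := by rw [hw]; exact min_le_left _ _
  have hwE : w ≤ E := by rw [hw]; exact min_le_right _ _
  obtain ⟨ε, hε⟩ : ∃ ε : ℝ, ε = w / 8 := ⟨_, rfl⟩
  have hε0 : 0 < ε := by rw [hε]; positivity
  have hε1 : ε ≤ 1 / 2 := by rw [hε]; linarith
  obtain ⟨C, hC⟩ : ∃ C : ℝ, C = 3 / (1 - c) + 2 := ⟨_, rfl⟩
  have hC0 : 0 < C := by rw [hC]; positivity
  obtain ⟨κ, hκ⟩ : ∃ κ : ℝ, κ = min (min (w / 120) (ε ^ 2 / 16)) (w * Real.log 2 / (2 * C)) :=
    ⟨_, rfl⟩
  have hκ0 : 0 < κ := by rw [hκ]; positivity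
  have hκ1 : κ ≤ w / 120 := by rw [hκ]; exact (min_le_left _ _).trans (min_le_left _ _)
  have hκ2 : κ ≤ ε ^ 2 / 16 := by rw [hκ]; exact (min_le_left _ _).trans (min_le_right _ _)
  have hκ3 : κ ≤ w * Real.log 2 / (2 * C) := by rw [hκ]; exact min_le_right _ _
  refine ⟨κ, hκ0, ?_⟩
  have f1 := poly_exp 1 (ε ^ 2 / 4) (by positivity) 0 (τ := 1 / 4) (by norm_num)
  have f2 := poly_exp (2 * (κ / Real.log 2) ^ 2) (ε ^ 2 / 8) (by positivity) 2 hl2
  have f3 := poly_exp (2 * (κ / Real.log 2)) (ε ^ 2 / 16) (by positivity) 1 hl2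
  have f4 : ∀ᶠ n : ℕ in atTop, 1 ≤ w / 8 * (n : ℝ) :=
    (tendsto_natCast_atTop_atTop.const_mul_atTop (show 0 < w / 8 by positivity)).eventually_ge_atTop 1
  filter_upwards [f1, f2, f3, f4, W_low (η := w / 8) (by positivity), eventually_ge_atTop 2,
    geo hc00 hc1] with n g1 g2 g3 g4 g5 hn2 hgeo s t ht hts hs B hB
  have hn0 : 0 < n := by omega
  have hn0R : (0 : ℝ) < n := by exact_mod_cast hn0
  have ht0 : (1 : ℝ) ≤ t := by exact_mod_cast ht
  have htp : (0 : ℝ) < t := by linarith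
  obtain ⟨g, hg⟩ := kern hn0 hε0 hε1 (by
    simp only [pow_zero, mul_one, one_mul] at g1
    exact g1)
  obtain ⟨a, R, T, k1, k2, k3, k4, k5, k6, k7, k8, k9, k10, k11⟩ := hgeo
  have ht2 : (t : ℝ) * Real.log 2 ≤ κ * n := by
    refine le_trans (mul_le_mul_of_nonneg_left ?_ (by positivity)) hts
    exact Real.log_le_log (by norm_num) (by linarith)
  have ht1 : (t : ℝ) ≤ κ / Real.log 2 * n := by
    rw [div_mul_eq_mul_div, le_div_iff₀ hl2]
    exact ht2
  obtain ⟨b, hb⟩ : ∃ b : ℝ, b = Real.exp (-(ε ^ 2 / 8 * n)) := ⟨_, rfl⟩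
  have hb0 : 0 < b := by rw [hb]; exact Real.exp_pos _
  rw [← hb] at hg g2
  have hcl : 0 ≤ κ / Real.log 2 := by positivity
  have hEw : 0 < E - w / 2 := by linarith
  obtain ⟨G, hG⟩ : ∃ G : ℝ, G = Real.exp ((E - w / 2) * n / t) := ⟨_, rfl⟩
  obtain ⟨χ, hχ⟩ : ∃ χ : ℝ, χ = 35 / 34 * T ^ n := ⟨_, rfl⟩
  have hχ0 : 0 < χ := by rw [hχ]; positivity
  have hmain := shell_bound hn0 hg (by positivity) rfl ht (by linarith)
    (pow_le_two hb0.le ?_) ?_ (G := G) (χ := χ) (by rw [hG]; exact Real.one_le_exp (by positivity))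
    hχ0 ?_ k1 k2 k3 k4 k5 k6 k7 (le_of_eq (by rw [hχ]; ring)) (transfer hn2 hc1 k1 k8 hB)
  · -- the final estimate
    have hTn : 0 < T ^ n := by positivity
    have hB0 : 0 ≤ B := lsb_nonneg hB
    have h1 : χ ≤ 2 * T ^ n := by rw [hχ]; linarith
    have h2 : G * Real.exp (-(1 / 2 * Real.log (2 * (1 - c)) * n) - 1 / (1 - c)) ≤
        4 * T ^ n * B := by
      calc G * Real.exp (-(1 / 2 * Real.log (2 * (1 - c)) * n) - 1 / (1 - c))
          ≤ G * (2 * (R ^ n - a ^ n)) := by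
            refine mul_le_mul_of_nonneg_left k11 ?_
            rw [hG]
            positivity
        _ = 2 * (G * (R ^ n - a ^ n)) := by ring
        _ ≤ 2 * (χ * B) := by linarith
        _ ≤ 2 * (2 * T ^ n * B) := by
            have := mul_le_mul_of_nonneg_right h1 hB0
            linarith
        _ = 4 * T ^ n * B := by ring
    have h4 : (4 : ℝ) ≤ Real.exp 2 := by
      have : (2 : ℝ) ≤ Real.exp 1 := by linarith [Real.add_one_le_exp (1 : ℝ)]
      have h5 : Real.exp 2 = Real.exp 1 * Real.exp 1 := by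
        rw [← Real.exp_add]
        norm_num
      rw [h5]
      have h6 := mul_le_mul this this (by norm_num) he.le
      linarith
    have h5 : 4 * T ^ n * B ≤
        Real.exp (2 + (1 / 2 * Real.log ((1 + c) / 2) * n + 2 / (1 - c))) * B := by
      refine mul_le_mul_of_nonneg_right ?_ hB0
      rw [Real.exp_add]
      exact mul_le_mul h4 k10 hTn.le (by positivity)
    have h6 := h2.trans h5
    rw [hG, ← Real.exp_add] at h6
    have h7 : Real.exp ((E - w / 2) * n / t +
        (-(1 / 2 * Real.log (2 * (1 - c)) * n) - 1 / (1 - c)) -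
        (2 + (1 / 2 * Real.log ((1 + c) / 2) * n + 2 / (1 - c)))) ≤ B := by
      rw [Real.exp_sub, div_le_iff₀ (Real.exp_pos _)]
      linarith
    refine le_trans (Real.exp_le_exp.2 ?_) h7
    rw [← hE]
    have h8 : Real.log (1 - c ^ 2) = Real.log (2 * (1 - c)) + Real.log ((1 + c) / 2) := by
      rw [← Real.log_mul (by positivity) (by positivity)]
      congr 1
      ring
    have h9 : (E - w / 2) * n / t = (E - w) * n / t + w / 2 * (n / t) := by
      field_simp
      ring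
    have h10 : (E - u) * n / t ≤ (E - w) * n / t := by
      gcongr
    have h11 : C ≤ w / 2 * (n / t) := by
      have h12 : κ * (2 * C) ≤ w * Real.log 2 := by
        rw [le_div_iff₀ (by positivity)] at hκ3
        exact hκ3
      have h13 : (t : ℝ) * Real.log 2 * (2 * C) ≤ w * Real.log 2 * n := by
        calc (t : ℝ) * Real.log 2 * (2 * C) ≤ κ * n * (2 * C) :=
              mul_le_mul_of_nonneg_right ht2 (by positivity)
          _ = κ * (2 * C) * n := by ring
          _ ≤ w * Real.log 2 * n := mul_le_mul_of_nonneg_right h12 hn0R.le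
      have h14 : t * (2 * C) * Real.log 2 ≤ w * n * Real.log 2 := by linarith
      have h15 := le_of_mul_le_mul_right h14 hl2
      rw [← mul_div_assoc, le_div_iff₀ htp]
      linarith
    have h12 : 1 / (1 - c) + 2 / (1 - c) = 3 / (1 - c) := by ring
    rw [h8, h9]
    have h13 : C = 1 / (1 - c) + 2 / (1 - c) + 2 := by rw [hC, h12]
    linarith
  · push_cast
    have e1 : (t : ℝ) ^ 2 ≤ (κ / Real.log 2 * n) ^ 2 := pow_le_pow_left₀ (by positivity) ht1 2
    calc 2 * ((t : ℝ) ^ 2 * b) ≤ 2 * ((κ / Real.log 2 * n) ^ 2 * b) := by gcongr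
      _ = 2 * (κ / Real.log 2) ^ 2 * (n : ℝ) ^ 2 * b := by ring
      _ ≤ Real.log 2 := g2
  · rw [← pow_mul]
    refine pow_le_two hb0.le ?_
    push_cast
    have e1 : (s : ℝ) * t ≤ Real.exp (κ * n) * (κ / Real.log 2 * n) := by
      gcongr
    have e2 : Real.exp (κ * n) * b ≤ Real.exp (-(ε ^ 2 / 16 * n)) := by
      rw [hb, ← Real.exp_add, Real.exp_le_exp]
      have := mul_le_mul_of_nonneg_right hκ2 hn0R.le
      linarith
    calc 2 * ((s : ℝ) * t * b) ≤ 2 * (Real.exp (κ * n) * (κ / Real.log 2 * n) * b) := by gcongr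
      _ = 2 * (κ / Real.log 2) * n * (Real.exp (κ * n) * b) := by ring
      _ ≤ 2 * (κ / Real.log 2) * n * Real.exp (-(ε ^ 2 / 16 * n)) := by gcongr
      _ = 2 * (κ / Real.log 2) * (n : ℝ) ^ 1 * Real.exp (-(ε ^ 2 / 16 * n)) := by rw [pow_one]
      _ ≤ Real.log 2 := g3
  · have e0 : (6528 : ℝ) ≤ Real.exp (13 * Real.log 2) := by
      have : Real.exp (13 * Real.log 2) = 8192 := by
        rw [mul_comm, Real.exp_mul, Real.exp_log (by norm_num)]
        norm_num
      rw [this]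
      norm_num
    have e1 : ((t : ℝ) + 1) ^ (2 * t) = Real.exp (2 * (t * Real.log (t + 1))) := by
      rw [pow_exp _ (by positivity)]
      congr 1
      push_cast
      ring
    have e2 : (6528 * G) ^ t ≤ Real.exp (13 * (t * Real.log 2) + (E - w / 2) * n) := by
      calc (6528 * G) ^ t
          ≤ (Real.exp (13 * Real.log 2) * Real.exp ((E - w / 2) * n / t)) ^ t := by
            rw [hG]
            gcongr
        _ = Real.exp (13 * (t * Real.log 2) + (E - w / 2) * n) := by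
            rw [← Real.exp_add, ← Real.exp_nat_mul]
            congr 1
            field_simp
    have e3 : (t : ℝ) * Real.log 2 ≤ t * Real.log (t + 1) :=
      mul_le_mul_of_nonneg_left (Real.log_le_log (by norm_num) (by linarith)) (by positivity)
    have e4 : (√(n / (4 * Real.pi)) * Real.exp (-ε) * Real.exp (-(1 / (n : ℝ)))) ^ n * V1 n =
        √(n / (4 * Real.pi)) ^ n * V1 n * Real.exp (-(ε * n) - 1) := by
      rw [mul_pow, mul_pow, ← Real.exp_nat_mul, ← Real.exp_nat_mul, sub_eq_add_neg, Real.exp_add]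
      have e5 : (n : ℝ) * -(1 / n) = -1 := by field_simp
      rw [e5, show (n : ℝ) * -ε = -(ε * n) by ring]
      ring
    have e5 : Real.exp (1 / 2 * Real.log ((1 + c) / 2) * n) ≤ χ := by
      refine k9.trans ?_
      rw [hχ]
      have : 0 < T ^ n := by positivity
      linarith
    rw [e1, e4]
    calc Real.exp (2 * (t * Real.log (t + 1))) * (6528 * G) ^ t
        ≤ Real.exp (2 * (t * Real.log (t + 1))) *
            Real.exp (13 * (t * Real.log 2) + (E - w / 2) * n) :=
          mul_le_mul_of_nonneg_left e2 (Real.exp_pos _).le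
      _ = Real.exp (2 * (t * Real.log (t + 1)) + (13 * (t * Real.log 2) + (E - w / 2) * n)) := by
          rw [← Real.exp_add]
      _ ≤ Real.exp (1 / 2 * Real.log ((1 + c) / 2) * n +
            ((1 / 2 * (1 - Real.log 2) - w / 8) * n + (-(ε * n) - 1))) := by
          rw [Real.exp_le_exp]
          have e6 : 15 * (κ * n) ≤ w / 8 * n := by
            have := mul_le_mul_of_nonneg_right hκ1 hn0R.le
            linarith
          have e7 : E * n = 1 / 2 * (1 - Real.log 2) * n + 1 / 2 * Real.log ((1 + c) / 2) * n := by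
            rw [hEeq]
            ring
          have e8 : ε * n = w / 8 * n := by rw [hε]
          have e9 : (E - w / 2) * n = E * n - 4 * (w / 8 * n) := by ring
          have e10 : (1 / 2 * (1 - Real.log 2) - w / 8) * n =
            1 / 2 * (1 - Real.log 2) * n - w / 8 * n := by ring
          rw [e9, e10]
          linarith
      _ = Real.exp (1 / 2 * Real.log ((1 + c) / 2) * n) *
            (Real.exp ((1 / 2 * (1 - Real.log 2) - w / 8) * n) * Real.exp (-(ε * n) - 1)) := by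
          rw [← Real.exp_add, ← Real.exp_add]
      _ ≤ χ * (√(n / (4 * Real.pi)) ^ n * V1 n * Real.exp (-(ε * n) - 1)) := by
          refine mul_le_mul e5 ?_ (by positivity) hχ0.le
          exact mul_le_mul_of_nonneg_right g5 (Real.exp_pos _).le

end Pool.Agent.Y570.LK
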